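import Pool.Agent.K3h27.PP.Stm

/-!
# Brick MIN3 for `MP_f77bf6_co`

In a graph without 8-vertex path and without cycles of length at least 6, a nonempty vertex set
`W` of minimum degree at least 3 contains an isolated 5-set or a pendant `K_4`.
-/

set_option autoImplicit false

open Finset

namespace Pool.Agent.K3h62.PP

open Pool.Agent.K3h27.PP

variable {V : Type} {G : SimpleGraph V}

theorem mem_nb {W : Finset V} {v u : V} : u ∈ nb G W v ↔ u ∈ W ∧ G.Adj v u := by
  classical
  unfold nb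
  simp

/-- a set with three elements has an element different from two given ones -/
theorem ex3 {s : Finset V} (hs : 3 ≤ s.card) (a b : V) : ∃ x ∈ s, x ≠ a ∧ x ≠ b := by
  classical
  have h : ({a, b} : Finset V).card < s.card := lt_of_le_of_lt (Finset.card_le_two) hs
  obtain ⟨x, hx, hx'⟩ := Finset.exists_mem_notMem_of_card_lt_card h
  refine ⟨x, hx, ?_⟩
  simpa using hx'

/-- a neighbour of the vertex `q0` of a 5-cycle of `W` lies on the 5-cycle -/
theorem five (hG : Good G) {W : Finset V} (hW : ∀ v ∈ W, 3 ≤ (nb G W v).card)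
    {q0 q1 q2 q3 q4 : V} (hnd : [q0, q1, q2, q3, q4].Nodup)
    (h01 : G.Adj q0 q1) (h12 : G.Adj q1 q2) (h23 : G.Adj q2 q3) (h34 : G.Adj q3 q4)
    (h40 : G.Adj q4 q0) {y : V} (hy : y ∈ W) (hy0 : G.Adj q0 y) :
    y = q0 ∨ y = q1 ∨ y = q2 ∨ y = q3 ∨ y = q4 := by
  by_contra hcon
  push Not at hcon
  obtain ⟨n0, n1, n2, n3, n4⟩ := hcon
  simp only [List.nodup_cons, List.mem_cons, List.not_mem_nil, or_false, not_or, List.nodup_nil,
    and_true, not_false_eq_true] at hnd
  have hy1 : ¬ G.Adj y q1 := fun h => by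
    refine hG.c6 q1 q2 q3 q4 q0 y ?_ h12 h23 h34 h40 hy0 h
    simp only [List.nodup_cons, List.mem_cons, List.not_mem_nil, or_false, not_or, List.nodup_nil,
      and_true, not_false_eq_true]
    grind
  have hy4 : ¬ G.Adj y q4 := fun h => by
    refine hG.c6 q4 q3 q2 q1 q0 y ?_ h34.symm h23.symm h12.symm h01.symm hy0 h
    simp only [List.nodup_cons, List.mem_cons, List.not_mem_nil, or_false, not_or, List.nodup_nil,
      and_true, not_false_eq_true]
    grind
  have hy23 : ¬ (G.Adj y q2 ∧ G.Adj y q3) := fun h => by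
    refine hG.c6 q3 q4 q0 q1 q2 y ?_ h34 h40 h01 h12 h.1.symm h.2
    simp only [List.nodup_cons, List.mem_cons, List.not_mem_nil, or_false, not_or, List.nodup_nil,
      and_true, not_false_eq_true]
    grind
  obtain ⟨z, hz, hyz, z0, z1, z2, z3, z4⟩ : ∃ z ∈ W, G.Adj y z ∧ z ≠ q0 ∧ z ≠ q1 ∧ z ≠ q2 ∧
      z ≠ q3 ∧ z ≠ q4 := by
    by_cases h2 : G.Adj y q2
    · obtain ⟨z, hz, hz0, hz2⟩ := ex3 (hW y hy) q0 q2
      rw [mem_nb] at hz
      refine ⟨z, hz.1, hz.2, hz0, ?_, hz2, ?_, ?_⟩
      · rintro rfl; exact hy1 hz.2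
      · rintro rfl; exact hy23 ⟨h2, hz.2⟩
      · rintro rfl; exact hy4 hz.2
    · obtain ⟨z, hz, hz0, hz3⟩ := ex3 (hW y hy) q0 q3
      rw [mem_nb] at hz
      refine ⟨z, hz.1, hz.2, hz0, ?_, ?_, hz3, ?_⟩
      · rintro rfl; exact hy1 hz.2
      · rintro rfl; exact h2 hz.2
      · rintro rfl; exact hy4 hz.2
  obtain ⟨w, hw, hwy, hw0⟩ := ex3 (hW z hz) y q0
  rw [mem_nb] at hw
  obtain ⟨hwW, hzw⟩ := hw
  have hzy : z ≠ y := hyz.ne'
  have hwz : w ≠ z := hzw.ne'
  by_cases w1 : w = q1
  · subst w1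
    refine hG.c7 w q2 q3 q4 q0 y z ?_ h12 h23 h34 h40 hy0 hyz hzw
    simp only [List.nodup_cons, List.mem_cons, List.not_mem_nil, or_false, not_or, List.nodup_nil,
      and_true, not_false_eq_true]
    grind
  by_cases w4 : w = q4
  · subst w4
    refine hG.c7 w q3 q2 q1 q0 y z ?_ h34.symm h23.symm h12.symm h01.symm hy0 hyz hzw
    simp only [List.nodup_cons, List.mem_cons, List.not_mem_nil, or_false, not_or, List.nodup_nil,
      and_true, not_false_eq_true]
    grind
  by_cases w2 : w = q2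
  · subst w2
    refine hG.c6 w q3 q4 q0 y z ?_ h23 h34 h40 hy0 hyz hzw
    simp only [List.nodup_cons, List.mem_cons, List.not_mem_nil, or_false, not_or, List.nodup_nil,
      and_true, not_false_eq_true]
    grind
  by_cases w3 : w = q3
  · subst w3
    refine hG.c6 w q2 q1 q0 y z ?_ h23.symm h12.symm h01.symm hy0 hyz hzw
    simp only [List.nodup_cons, List.mem_cons, List.not_mem_nil, or_false, not_or, List.nodup_nil,
      and_true, not_false_eq_true]
    grind
  refine hG.p8 q1 q2 q3 q4 q0 y z w ?_ h12 h23 h34 h40 hy0 hyz hzw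
  simp only [List.nodup_cons, List.mem_cons, List.not_mem_nil, or_false, not_or, List.nodup_nil,
    and_true, not_false_eq_true]
  grind

/-- paths inside `W` as lists -/
def IsP (G : SimpleGraph V) (W : Finset V) (l : List V) : Prop :=
  l.Nodup ∧ (∀ x ∈ l, x ∈ W) ∧ l.IsChain G.Adj

theorem IsP.len (hG : NoP8 G) {W : Finset V} {l : List V} (h : IsP G W l) : l.length ≤ 7 := by
  by_contra hl
  obtain ⟨h1, h2, h3⟩ := h
  match l with
  | [] => simp at hl
  | [_] => simp at hl
  | [_, _] => simp at hl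
  | [_, _, _] => simp at hl
  | [_, _, _, _] => simp at hl
  | [_, _, _, _, _] => simp at hl
  | [_, _, _, _, _, _] => simp at hl
  | [_, _, _, _, _, _, _] => simp at hl
  | a :: b :: c :: d :: e :: f :: g :: i :: t =>
    simp only [List.isChain_cons_cons] at h3
    obtain ⟨e1, e2, e3, e4, e5, e6, e7, -⟩ := h3
    refine hG a b c d e f g i ?_ e1 e2 e3 e4 e5 e6 e7
    have hs : List.Sublist [a, b, c, d, e, f, g, i]
        (a :: b :: c :: d :: e :: f :: g :: i :: t) := by
      simp [List.cons_sublist_cons]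
    exact h1.sublist hs

/-- there is a longest path -/
theorem longest (hG : NoP8 G) {W : Finset V} (hW : W.Nonempty) :
    ∃ l, IsP G W l ∧ ∀ l', IsP G W l' → l'.length ≤ l.length := by
  classical
  obtain ⟨w, hw⟩ := hW
  have h1 : IsP G W [w] := ⟨by simp, by simpa using hw, by simp⟩
  have hs := Nat.findGreatest_spec (P := fun m => ∃ l, IsP G W l ∧ l.length = m) (m := 1) (n := 7)
    (by norm_num) ⟨[w], h1, by simp⟩
  obtain ⟨l, hl, hl'⟩ := hs
  refine ⟨l, hl, fun l' hl'' => ?_⟩
  rw [hl']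
  exact Nat.le_findGreatest (hl''.len hG) ⟨l', hl'', rfl⟩

/-- the first vertex of a longest path has its neighbours among the next three -/
theorem head (hG : Good G) {W : Finset V} (hW : ∀ v ∈ W, 3 ≤ (nb G W v).card)
    (h5 : ∀ q0 ∈ W, ∀ q1 ∈ W, ∀ q2 ∈ W, ∀ q3 ∈ W, ∀ q4 ∈ W, [q0, q1, q2, q3, q4].Nodup →
      G.Adj q0 q1 → G.Adj q1 q2 → G.Adj q2 q3 → G.Adj q3 q4 → G.Adj q4 q0 → False)
    {x1 : V} {l : List V} (hl : IsP G W (x1 :: l))
    (hm : ∀ l', IsP G W l' → l'.length ≤ (x1 :: l).length) :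
    ∃ x2 x3 x4 t, l = x2 :: x3 :: x4 :: t ∧ G.Adj x1 x2 ∧ G.Adj x1 x3 ∧ G.Adj x1 x4 ∧
      ∀ y ∈ W, G.Adj x1 y → y = x2 ∨ y = x3 ∨ y = x4 := by
  classical
  have hx1 : x1 ∈ W := hl.2.1 x1 (by simp)
  have hin : ∀ y ∈ W, G.Adj x1 y → y ∈ l := by
    intro y hy h
    by_contra hyl
    have hP : IsP G W (y :: x1 :: l) := by
      refine ⟨?_, ?_, ?_⟩
      · refine List.nodup_cons.2 ⟨?_, hl.1⟩
        intro h'
        rcases List.mem_cons.1 h' with h'' | h''
        · exact h.ne' h''
        · exact hyl h''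
      · intro x hx
        rcases List.mem_cons.1 hx with rfl | hx
        · exact hy
        · exact hl.2.1 x hx
      · exact List.isChain_cons_cons.2 ⟨h.symm, hl.2.2⟩
    have := hm _ hP
    simp at this
  have key : ∀ x2 x3 x4 : V, (∀ y ∈ W, G.Adj x1 y → y = x2 ∨ y = x3 ∨ y = x4) →
      G.Adj x1 x2 ∧ G.Adj x1 x3 ∧ G.Adj x1 x4 := by
    intro x2 x3 x4 h
    have e1 := ex3 (hW x1 hx1) x2 x3
    have e2 := ex3 (hW x1 hx1) x2 x4
    have e3 := ex3 (hW x1 hx1) x3 x4
    simp only [mem_nb] at e1 e2 e3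
    obtain ⟨a, ⟨ha, ha'⟩, ha2, ha3⟩ := e1
    obtain ⟨b, ⟨hb, hb'⟩, hb2, hb3⟩ := e2
    obtain ⟨c, ⟨hc, hc'⟩, hc2, hc3⟩ := e3
    have h1 := h a ha ha'
    have h2 := h b hb hb'
    have h3 := h c hc hc'
    have : a = x4 := by tauto
    have : b = x3 := by tauto
    have : c = x2 := by tauto
    subst_vars
    exact ⟨hc', hb', ha'⟩
  have hlen : l.length ≤ 6 := by
    have := hl.len hG.p8
    rw [List.length_cons] at this
    omega
  have hcard : 3 ≤ l.length := by
    have h1 : nb G W x1 ⊆ l.toFinset := by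
      intro y hy
      rw [mem_nb] at hy
      exact List.mem_toFinset.2 (hin y hy.1 hy.2)
    exact (hW x1 hx1).trans ((Finset.card_le_card h1).trans (List.toFinset_card_le l))
  obtain ⟨hnd, hmem, hch⟩ := hl
  match l, hlen, hcard, hnd, hmem, hch, hin with
  | [], _, hc, _, _, _, _ => simp at hc
  | [_], _, hc, _, _, _, _ => simp at hc
  | [_, _], _, hc, _, _, _, _ => simp at hc
  | x2 :: x3 :: x4 :: t, hlen, _, hnd, hmem, hch, hin =>
    refine ⟨x2, x3, x4, t, rfl, ?_⟩
    suffices hs : ∀ y ∈ W, G.Adj x1 y → y = x2 ∨ y = x3 ∨ y = x4 from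
      ⟨(key x2 x3 x4 hs).1, (key x2 x3 x4 hs).2.1, (key x2 x3 x4 hs).2.2, hs⟩
    intro y hy hxy
    have hy' := hin y hy hxy
    simp only [List.mem_cons] at hy'
    rcases hy' with h | h | h | h
    · exact Or.inl h
    · exact Or.inr (Or.inl h)
    · exact Or.inr (Or.inr h)
    exfalso
    simp only [List.isChain_cons_cons] at hch
    obtain ⟨c12, c23, c34, hch⟩ := hch
    have hW1 := hmem x1 (by simp)
    have hW2 := hmem x2 (by simp)
    have hW3 := hmem x3 (by simp)
    have hW4 := hmem x4 (by simp)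
    match t, hlen, hnd, hmem, hch, h with
    | x5 :: t, hlen, hnd, hmem, hch, h =>
      rw [List.isChain_cons_cons] at hch
      obtain ⟨c45, hch⟩ := hch
      rcases List.mem_cons.1 h with h | h
      · subst h
        refine h5 x1 hW1 x2 hW2 x3 hW3 x4 hW4 y hy ?_ c12 c23 c34 c45 hxy.symm
        exact hnd.sublist (by simp [List.cons_sublist_cons])
      match t, hlen, hnd, hmem, hch, h with
      | x6 :: t, hlen, hnd, hmem, hch, h =>
        rw [List.isChain_cons_cons] at hch
        obtain ⟨c56, hch⟩ := hch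
        rcases List.mem_cons.1 h with h | h
        · subst h
          refine hG.c6 x1 x2 x3 x4 x5 y ?_ c12 c23 c34 c45 c56 hxy.symm
          exact hnd.sublist (by simp [List.cons_sublist_cons])
        match t, hlen, hnd, hmem, hch, h with
        | x7 :: t, hlen, hnd, hmem, hch, h =>
          rw [List.isChain_cons_cons] at hch
          obtain ⟨c67, hch⟩ := hch
          rcases List.mem_cons.1 h with h | h
          · subst h
            refine hG.c7 x1 x2 x3 x4 x5 x6 y ?_ c12 c23 c34 c45 c56 c67 hxy.symm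
            exact hnd.sublist (by simp [List.cons_sublist_cons])
          match t, hlen, h with
          | _ :: _, hlen, _ =>
            simp only [List.length_cons] at hlen
            omega

theorem t_MIN3 : S_MIN3 := by
  classical
  intro V G hG W hne hW
  by_cases h5 : ∃ q0 ∈ W, ∃ q1 ∈ W, ∃ q2 ∈ W, ∃ q3 ∈ W, ∃ q4 ∈ W, [q0, q1, q2, q3, q4].Nodup ∧
      G.Adj q0 q1 ∧ G.Adj q1 q2 ∧ G.Adj q2 q3 ∧ G.Adj q3 q4 ∧ G.Adj q4 q0
  · left
    obtain ⟨q0, w0, q1, w1, q2, w2, q3, w3, q4, w4, hnd, h01, h12, h23, h34, h40⟩ := h5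
    refine ⟨{q0, q1, q2, q3, q4}, ?_, ?_, ?_⟩
    · intro x hx
      simp only [Finset.mem_insert, Finset.mem_singleton] at hx
      rcases hx with rfl | rfl | rfl | rfl | rfl <;> assumption
    · simp only [List.nodup_cons, List.mem_cons, List.not_mem_nil, or_false, not_or,
        List.nodup_nil, and_true, not_false_eq_true] at hnd
      obtain ⟨⟨a1, a2, a3, a4⟩, ⟨a5, a6, a7⟩, ⟨a8, a9⟩, a10⟩ := hnd
      rw [Finset.card_insert_of_notMem, Finset.card_insert_of_notMem,
        Finset.card_insert_of_notMem, Finset.card_insert_of_notMem, Finset.card_singleton]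
      all_goals simp_all
    · have hperm : ∀ a b c d e : V, [a, b, c, d, e].Nodup → [b, c, d, e, a].Nodup := by
        intro a b c d e h
        simp only [List.nodup_cons, List.mem_cons, List.not_mem_nil, or_false, not_or,
          List.nodup_nil, and_true, not_false_eq_true] at h ⊢
        grind
      have d1 := hperm _ _ _ _ _ hnd
      have d2 := hperm _ _ _ _ _ d1
      have d3 := hperm _ _ _ _ _ d2
      have d4 := hperm _ _ _ _ _ d3
      intro x hx y hy hxy
      simp only [Finset.mem_insert, Finset.mem_singleton] at hx ⊢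
      rcases hx with rfl | rfl | rfl | rfl | rfl
      · exact five hG hW hnd h01 h12 h23 h34 h40 hy hxy
      · have := five hG hW d1 h12 h23 h34 h40 h01 hy hxy
        tauto
      · have := five hG hW d2 h23 h34 h40 h01 h12 hy hxy
        tauto
      · have := five hG hW d3 h34 h40 h01 h12 h23 hy hxy
        tauto
      · have := five hG hW d4 h40 h01 h12 h23 h34 hy hxy
        tauto
  · right
    have h5' : ∀ q0 ∈ W, ∀ q1 ∈ W, ∀ q2 ∈ W, ∀ q3 ∈ W, ∀ q4 ∈ W, [q0, q1, q2, q3, q4].Nodup →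
      G.Adj q0 q1 → G.Adj q1 q2 → G.Adj q2 q3 → G.Adj q3 q4 → G.Adj q4 q0 → False := by
      intro q0 w0 q1 w1 q2 w2 q3 w3 q4 w4 hnd h01 h12 h23 h34 h40
      exact h5 ⟨q0, w0, q1, w1, q2, w2, q3, w3, q4, w4, hnd, h01, h12, h23, h34, h40⟩
    obtain ⟨l, hl, hm⟩ := longest hG.p8 hne
    match l, hl, hm with
    | [], _, hm =>
      obtain ⟨w, hw⟩ := hne
      have := hm [w] ⟨by simp, by simpa using hw, by simp⟩
      simp at this
    | x1 :: l, hl, hm =>
      obtain ⟨x2, x3, x4, t, rfl, a12, a13, a14, hN1⟩ := head hG hW h5' hl hm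
      obtain ⟨hnd, hmem, hch⟩ := hl
      simp only [List.isChain_cons_cons] at hch
      obtain ⟨c12, c23, c34, hch⟩ := hch
      have hp2 : IsP G W (x2 :: x1 :: x3 :: x4 :: t) := by
        refine ⟨?_, ?_, ?_⟩
        · exact (List.Perm.swap x1 x2 _).nodup_iff.2 hnd
        · intro x hx
          exact hmem x (by
            simp only [List.mem_cons] at hx ⊢
            tauto)
        · simp only [List.isChain_cons_cons]
          exact ⟨c12.symm, a13, c34, hch⟩
      have hp3 : IsP G W (x3 :: x2 :: x1 :: x4 :: t) := by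
        refine ⟨?_, ?_, ?_⟩
        · simp only [List.nodup_cons, List.mem_cons, not_or] at hnd ⊢
          grind
        · intro x hx
          exact hmem x (by
            simp only [List.mem_cons] at hx ⊢
            tauto)
        · simp only [List.isChain_cons_cons]
          exact ⟨c23.symm, c12.symm, a14, hch⟩
      obtain ⟨y1, y3, y4, t', e2, b12, b13, b14, hN2⟩ := head hG hW h5' hp2 (by simpa using hm)
      obtain ⟨z2, z1, z4, t'', e3, d12, d13, d14, hN3⟩ := head hG hW h5' hp3 (by simpa using hm)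
      simp only [List.cons.injEq] at e2 e3
      obtain ⟨rfl, rfl, rfl, -⟩ := e2
      obtain ⟨rfl, rfl, rfl, -⟩ := e3
      refine ⟨x1, x2, x3, x4, hmem _ (by simp), hmem _ (by simp), hmem _ (by simp),
        hmem _ (by simp), hnd.sublist (by simp [List.cons_sublist_cons]), a12, a13, a14, c23,
        b14, c34, ?_⟩
      intro y hy h
      rcases h with h | h | h
      · have := hN1 y hy h
        tauto
      · have := hN2 y hy h
        tauto
      · have := hN3 y hy h
        tauto

end Pool.Agent.K3h62.PP
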